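import Pool.Agent.K1H80.KA.StmC

/-!
# The kernel of the Jacobian matrix (piece KC-LIN)
-/

set_option autoImplicit false

namespace Pool.Agent.K1H92.KC

open Pool.Agent.KA

theorem base9 {L : Type} [Field L] (x00 x01 x02 x10 x11 x12 x20 x21 x22 u00 u01 u02 u10 u11 u12 u20 u21 u22 : L) (h2 : (2 : L) ≠ 0)
    (hD : x00 * x11 * x22 - x00 * x12 * x21 - x01 * x10 * x22 + x01 * x12 * x20 + x02 * x10 * x21 - x02 * x11 * x20 ≠ 0)
    (hm : x00 * x11 - x01 * x10 ≠ 0)
    (r01_01 : u00 * x11 + x00 * u11 - u01 * x10 - x01 * u10 = 0)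
    (r01_02 : u00 * x12 + x00 * u12 - u02 * x10 - x02 * u10 = 0)
    (r01_12 : u01 * x12 + x01 * u12 - u02 * x11 - x02 * u11 = 0)
    (r02_01 : u00 * x21 + x00 * u21 - u01 * x20 - x01 * u20 = 0)
    (r02_02 : u00 * x22 + x00 * u22 - u02 * x20 - x02 * u20 = 0)
    (r02_12 : u01 * x22 + x01 * u22 - u02 * x21 - x02 * u21 = 0)
    (r12_01 : u10 * x21 + x10 * u21 - u11 * x20 - x11 * u20 = 0)
    (r12_02 : u10 * x22 + x10 * u22 - u12 * x20 - x12 * u20 = 0)
    (r12_12 : u11 * x22 + x11 * u22 - u12 * x21 - x12 * u21 = 0)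
    : u00 = 0 ∧ u01 = 0 ∧ u02 = 0 ∧ u10 = 0 ∧ u11 = 0 ∧ u12 = 0 ∧ u20 = 0 ∧ u21 = 0 ∧ u22 = 0 := by
  obtain ⟨D, hDe⟩ : ∃ D, D = x00 * x11 * x22 - x00 * x12 * x21 - x01 * x10 * x22 + x01 * x12 * x20 + x02 * x10 * x21 - x02 * x11 * x20 := ⟨_, rfl⟩
  obtain ⟨T, hTe⟩ : ∃ T, T = u00 * ((x11 * x22 - x12 * x21)) + u01 * (-(x10 * x22 - x12 * x20)) + u02 * ((x10 * x21 - x11 * x20)) + u10 * (-(x01 * x22 - x02 * x21)) + u11 * ((x00 * x22 - x02 * x20)) + u12 * (-(x00 * x21 - x01 * x20)) + u20 * ((x01 * x12 - x02 * x11)) + u21 * (-(x00 * x12 - x02 * x10)) + u22 * ((x00 * x11 - x01 * x10)) := ⟨_, rfl⟩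
  rw [← hDe] at hD
  have k00 : D * u00 = T * x00 := by
    rw [hDe, hTe]
    linear_combination -x00 * x00 * r12_12 + x01 * x00 * r12_02 - x02 * x00 * r12_01 + x00 * x10 * r02_12 - x01 * x10 * r02_02 + x02 * x10 * r02_01 - x00 * x20 * r01_12 + x01 * x20 * r01_02 - x02 * x20 * r01_01
  have k01 : D * u01 = T * x01 := by
    rw [hDe, hTe]
    linear_combination -x00 * x01 * r12_12 + x01 * x01 * r12_02 - x02 * x01 * r12_01 + x00 * x11 * r02_12 - x01 * x11 * r02_02 + x02 * x11 * r02_01 - x00 * x21 * r01_12 + x01 * x21 * r01_02 - x02 * x21 * r01_01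
  have k02 : D * u02 = T * x02 := by
    rw [hDe, hTe]
    linear_combination -x00 * x02 * r12_12 + x01 * x02 * r12_02 - x02 * x02 * r12_01 + x00 * x12 * r02_12 - x01 * x12 * r02_02 + x02 * x12 * r02_01 - x00 * x22 * r01_12 + x01 * x22 * r01_02 - x02 * x22 * r01_01
  have k10 : D * u10 = T * x10 := by
    rw [hDe, hTe]
    linear_combination -x10 * x00 * r12_12 + x11 * x00 * r12_02 - x12 * x00 * r12_01 + x10 * x10 * r02_12 - x11 * x10 * r02_02 + x12 * x10 * r02_01 - x10 * x20 * r01_12 + x11 * x20 * r01_02 - x12 * x20 * r01_01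
  have k11 : D * u11 = T * x11 := by
    rw [hDe, hTe]
    linear_combination -x10 * x01 * r12_12 + x11 * x01 * r12_02 - x12 * x01 * r12_01 + x10 * x11 * r02_12 - x11 * x11 * r02_02 + x12 * x11 * r02_01 - x10 * x21 * r01_12 + x11 * x21 * r01_02 - x12 * x21 * r01_01
  have k12 : D * u12 = T * x12 := by
    rw [hDe, hTe]
    linear_combination -x10 * x02 * r12_12 + x11 * x02 * r12_02 - x12 * x02 * r12_01 + x10 * x12 * r02_12 - x11 * x12 * r02_02 + x12 * x12 * r02_01 - x10 * x22 * r01_12 + x11 * x22 * r01_02 - x12 * x22 * r01_01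
  have k20 : D * u20 = T * x20 := by
    rw [hDe, hTe]
    linear_combination -x20 * x00 * r12_12 + x21 * x00 * r12_02 - x22 * x00 * r12_01 + x20 * x10 * r02_12 - x21 * x10 * r02_02 + x22 * x10 * r02_01 - x20 * x20 * r01_12 + x21 * x20 * r01_02 - x22 * x20 * r01_01
  have k21 : D * u21 = T * x21 := by
    rw [hDe, hTe]
    linear_combination -x20 * x01 * r12_12 + x21 * x01 * r12_02 - x22 * x01 * r12_01 + x20 * x11 * r02_12 - x21 * x11 * r02_02 + x22 * x11 * r02_01 - x20 * x21 * r01_12 + x21 * x21 * r01_02 - x22 * x21 * r01_01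
  have k22 : D * u22 = T * x22 := by
    rw [hDe, hTe]
    linear_combination -x20 * x02 * r12_12 + x21 * x02 * r12_02 - x22 * x02 * r12_01 + x20 * x12 * r02_12 - x21 * x12 * r02_02 + x22 * x12 * r02_01 - x20 * x22 * r01_12 + x21 * x22 * r01_02 - x22 * x22 * r01_01
  have hT : T = 0 := by
    have h3 : 2 * T * (x00 * x11 - x01 * x10) = 0 := by
      linear_combination D * r01_01 - x11 * k00 - x00 * k11 + x10 * k01 + x01 * k10
    rcases mul_eq_zero.1 h3 with h4 | h4
    · rcases mul_eq_zero.1 h4 with h5 | h5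
      · exact absurd h5 h2
      · exact h5
    · exact absurd h4 hm
  have hz : ∀ z w : L, D * z = T * w → z = 0 := by
    intro z w h
    rw [hT, zero_mul] at h
    exact (mul_eq_zero.1 h).resolve_left hD
  exact ⟨hz _ _ k00, hz _ _ k01, hz _ _ k02, hz _ _ k10, hz _ _ k11, hz _ _ k12, hz _ _ k20, hz _ _ k21, hz _ _ k22⟩

theorem Built.exists_adj {V : Type} [DecidableEq V] {G : SimpleGraph V} {A : Finset V}
    (h : Built G A) : ∃ k ∈ A, ∃ l ∈ A, G.Adj k l := by
  induction h with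
  | tri a b c hab _ _ => exact ⟨a, by simp, b, by simp, hab⟩
  | ext A v a b _ _ _ _ _ _ _ ih =>
    obtain ⟨k, hk, l, hl, h⟩ := ih
    exact ⟨k, Finset.mem_insert_of_mem hk, l, Finset.mem_insert_of_mem hl, h⟩

/-- the relations -/
def Rel {V W L : Type} [Field L] (G : SimpleGraph V) (H : SimpleGraph W) (x u : V → W → L) : Prop :=
  ∀ i j k l, G.Adj i j → H.Adj k l →
    u i k * x j l + x i k * u j l - u i l * x j k - x i l * u j k = 0

theorem Rel.swap {V W L : Type} [Field L] {G : SimpleGraph V} {H : SimpleGraph W}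
    {x u : V → W → L} (h : Rel G H x u) : Rel H G (fun k i => x i k) (fun k i => u i k) := by
  intro i j k l hij hkl
  linear_combination h k l i j hkl hij

theorem gen_swap {V W L : Type} [Field L] {x : V → W → L} (h : Gen x) :
    Gen (fun (k : W) (i : V) => x i k) where
  ne := fun i k => h.ne k i
  two := fun i j k l hij hkl => by
    have h1 := h.two k l i j hkl hij
    intro h2
    apply h1
    linear_combination h2
  three := fun a b ha hb => by
    have h1 := h.three b a hb ha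
    rw [← Matrix.det_transpose] at h1
    exact h1

theorem step (hC : CONStm) {V W L : Type} [DecidableEq V] [DecidableEq W] [Field L]
    (G : SimpleGraph V) (H : SimpleGraph W) (x : V → W → L) (hx : Gen x) (u : V → W → L)
    (hrel : Rel G H x u) (A : Finset V) (B : Finset W) (hB : Built H B) (v a b : V)
    (ha : a ∈ A) (hb : b ∈ A) (hab : a ≠ b) (hva : G.Adj v a) (hvb : G.Adj v b)
    (h0 : ∀ i ∈ A, ∀ k ∈ B, u i k = 0) : ∀ k ∈ B, u v k = 0 := by
  have hcon : ∀ c : V, c ∈ A → G.Adj v c → ∀ k ∈ B, ∀ l ∈ B, u v k / x c k = u v l / x c l := by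
    intro c hc hvc
    refine hC W H B hB L (fun k => u v k / x c k) ?_
    intro k hk l hl hkl
    have h1 := hrel v c k l hvc hkl
    rw [h0 c hc k hk, h0 c hc l hl] at h1
    have h2 := hx.ne c k
    have h3 := hx.ne c l
    show u v k / x c k = u v l / x c l
    rw [div_eq_div_iff h2 h3]
    linear_combination h1
  obtain ⟨k, hk, l, hl, hkl⟩ := Built.exists_adj hB
  have hne : k ≠ l := hkl.ne
  have h1 := hcon a ha hva k hk l hl
  have h2 := hcon b hb hvb k hk l hl
  rw [div_eq_div_iff (hx.ne a k) (hx.ne a l)] at h1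
  rw [div_eq_div_iff (hx.ne b k) (hx.ne b l)] at h2
  have h3 := hx.two a b k l hab hne
  have h4 : u v k = 0 := by
    have h5 : u v k * (x a k * x b l - x a l * x b k) = 0 := by
      linear_combination x a k * h2 - x b k * h1
    exact (mul_eq_zero.1 h5).resolve_right h3
  intro m hm
  have h6 := hcon a ha hva m hm k hk
  rw [h4, zero_div, div_eq_zero_iff] at h6
  exact h6.resolve_right (hx.ne a m)

theorem base {V W L : Type} [DecidableEq V] [DecidableEq W] [Field L]
    (G : SimpleGraph V) (H : SimpleGraph W) (x : V → W → L) (h2 : (2 : L) ≠ 0) (hx : Gen x)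
    (u : V → W → L) (hrel : Rel G H x u) (a0 a1 a2 : V) (b0 b1 b2 : W)
    (ha01 : G.Adj a0 a1) (ha12 : G.Adj a1 a2) (ha02 : G.Adj a0 a2)
    (hb01 : H.Adj b0 b1) (hb12 : H.Adj b1 b2) (hb02 : H.Adj b0 b2) :
    ∀ i ∈ ({a0, a1, a2} : Finset V), ∀ k ∈ ({b0, b1, b2} : Finset W), u i k = 0 := by
  have hia : Function.Injective ![a0, a1, a2] := by
    intro s t hst
    fin_cases s <;> fin_cases t <;>
      simp_all [ha01.ne, ha12.ne, ha02.ne, ha01.ne.symm, ha12.ne.symm, ha02.ne.symm]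
  have hib : Function.Injective ![b0, b1, b2] := by
    intro s t hst
    fin_cases s <;> fin_cases t <;>
      simp_all [hb01.ne, hb12.ne, hb02.ne, hb01.ne.symm, hb12.ne.symm, hb02.ne.symm]
  have hD := hx.three ![a0, a1, a2] ![b0, b1, b2] hia hib
  rw [Matrix.det_fin_three] at hD
  have hm := hx.two a0 a1 b0 b1 ha01.ne hb01.ne
  have h := base9 (x a0 b0) (x a0 b1) (x a0 b2) (x a1 b0) (x a1 b1) (x a1 b2)
    (x a2 b0) (x a2 b1) (x a2 b2) (u a0 b0) (u a0 b1) (u a0 b2) (u a1 b0) (u a1 b1) (u a1 b2)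
    (u a2 b0) (u a2 b1) (u a2 b2) h2 hD hm
    (hrel _ _ _ _ ha01 hb01) (hrel _ _ _ _ ha01 hb02) (hrel _ _ _ _ ha01 hb12)
    (hrel _ _ _ _ ha02 hb01) (hrel _ _ _ _ ha02 hb02) (hrel _ _ _ _ ha02 hb12)
    (hrel _ _ _ _ ha12 hb01) (hrel _ _ _ _ ha12 hb02) (hrel _ _ _ _ ha12 hb12)
  obtain ⟨h00, h01, h02, h10, h11, h12, h20, h21, h22⟩ := h
  intro i hi k hk
  simp only [Finset.mem_insert, Finset.mem_singleton] at hi hk
  rcases hi with rfl | rfl | rfl <;> rcases hk with rfl | rfl | rfl <;> assumption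

theorem lin (hC : CONStm) : LINStm := by
  intro V W L _ _ _ G H x h2 hx u hrel0 A B hA hB
  have hrel : Rel G H x u := hrel0
  induction hA with
  | tri a0 a1 a2 ha01 ha12 ha02 =>
    induction hB with
    | tri b0 b1 b2 hb01 hb12 hb02 =>
      exact base G H x h2 hx u hrel a0 a1 a2 b0 b1 b2 ha01 ha12 ha02 hb01 hb12 hb02
    | ext B w k l _ _ hk hl hkl hwk hwl ih =>
      intro i hi m hm
      rcases Finset.mem_insert.1 hm with rfl | hm
      · exact step hC H G (fun k i => x i k) (gen_swap hx) (fun k i => u i k) hrel.swap B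
          {a0, a1, a2} (Built.tri a0 a1 a2 ha01 ha12 ha02) m k l hk hl hkl hwk hwl
          (fun k' hk' i' hi' => ih i' hi' k' hk') i hi
      · exact ih i hi m hm
  | ext A v a b _ _ ha hb hab hva hvb ih =>
    intro i hi m hm
    rcases Finset.mem_insert.1 hi with rfl | hi
    · exact step hC G H x hx u hrel A B hB i a b ha hb hab hva hvb ih m hm
    · exact ih i hi m hm

end Pool.Agent.K1H92.KC
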